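import Pool.Agent.H37.Lr2

set_option autoImplicit false

open Pool.Agent.H37 Vl Ki Defc

theorem Pool.Agent.Results.MP_de6bcb_lc.Yes.result (V : List Bool →. List Bool) (hV : Opt V)
    (nm : ℕ → List Bool) (h1 : Computable nm) (h2 : Function.Injective nm) (A B : ℕ → Bool)
    (h : ∀ Z, RandIn B Z → RandIn (join A B) Z) (hB : RandIn A B) :
    ∃ c : ℕ, ∀ n, KP V (cut A n) ≤ KP V (nm n) + c :=
  Lr.main hV (CI.of_comp h1) h2 (fun Z hZ => rd_iff.1 (h Z (rd_iff.2 hZ))) (rd_iff.1 hB)
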